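import Mathlib
import Pool.Agent.P.MP_02b125_co.Half

open Finset

namespace Pool.Agent.Results.MP_02b125_co.FlowCounter

/-- Vertices of the hypercube `{0,1}^d` are identified with their supports, subsets of `Fin d`.
A directed edge changes one coordinate from `0` to `1`. -/
def Edge {d : ℕ} (x y : Finset (Fin d)) : Prop := ∃ i, i ∉ x ∧ y = insert i x

/-- `(A, B; φ)` is a matched pair with `A ⊆ S` and `B` inside the complement of `S`. -/
def Matched {d : ℕ} (S A B : Finset (Finset (Fin d))) (φ : Finset (Fin d) → Finset (Fin d)) :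
    Prop :=
  A ⊆ S ∧ B ⊆ Sᶜ ∧ Set.BijOn φ A B ∧ ∀ a ∈ A, a ⊂ φ a

/-- `D` is the directed volume of `S`. -/
def IsDvol {d : ℕ} (S : Finset (Finset (Fin d))) (D : ℕ) : Prop :=
  IsGreatest {n | ∃ A B φ, Matched S A B φ ∧ A.card = n} D

/-- `r` is the least separation distance of a matched pair of size `D` for `S`. -/
def IsSepDist {d : ℕ} (S : Finset (Finset (Fin d))) (D : ℕ) (r : ℝ) : Prop :=
  IsLeast {ρ | ∃ A B φ, Matched S A B φ ∧ A.card = D ∧
    ρ = (∑ a ∈ A, (((φ a).card : ℝ) - (a.card : ℝ))) / (A.card : ℝ)} r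

/-- A feasible flow in the network for `S` with edge capacity `cE` and vertex capacity `cV`:
`f` is the flow on hypercube edges, `s` on the source arcs, `t` on the sink arcs. -/
def IsFlow {d : ℕ} (S : Finset (Finset (Fin d))) (cE cV : ℝ)
    (f : Finset (Fin d) → Finset (Fin d) → ℝ) (s t : Finset (Fin d) → ℝ) : Prop :=
  (∀ x y, 0 ≤ f x y ∧ f x y ≤ cE) ∧ (∀ x y, ¬ Edge x y → f x y = 0) ∧
  (∀ v, 0 ≤ s v ∧ 0 ≤ t v) ∧ (∀ v, v ∉ S → s v = 0) ∧ (∀ v, v ∈ S → t v = 0) ∧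
  (∀ v, s v + ∑ u, f u v = t v + ∑ w, f v w) ∧ (∀ v, s v + ∑ u, f u v ≤ cV)

/-- `m` is the maxflow: the least upper bound of the values of feasible flows. -/
def IsMaxflow {d : ℕ} (S : Finset (Finset (Fin d))) (cE cV m : ℝ) : Prop :=
  IsLUB {val | ∃ f s t, IsFlow S cE cV f s t ∧ val = ∑ v, s v} m

section abstract

variable {d : ℕ} {S S1 T1 S2 T2 : Finset (Finset (Fin d))}
  {φ1 φ2 : Finset (Fin d) → Finset (Fin d)}

theorem flow_le_cut {cE cV : ℝ} {f : Finset (Fin d) → Finset (Fin d) → ℝ}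
    {s t : Finset (Fin d) → ℝ} (h : IsFlow S cE cV f s t) :
    ∑ v, s v ≤ ∑ v ∈ S, ∑ w ∈ Sᶜ, f v w := by
  obtain ⟨h1, -, -, h4, h5, h6, -⟩ := h
  have e1 : ∑ v, s v = ∑ v ∈ S, s v := by
    rw [← sum_subset (subset_univ S)]
    intro v _ hv
    exact h4 v hv
  have e2 : ∑ v ∈ S, s v = ∑ v ∈ S, ∑ w, f v w - ∑ v ∈ S, ∑ u, f u v := by
    rw [← sum_sub_distrib]
    refine sum_congr rfl fun v hv => ?_
    have := h6 v
    rw [h5 v hv] at this
    linarith
  have e3 : ∑ v ∈ S, ∑ w, f v w = ∑ v ∈ S, ∑ w ∈ S, f v w + ∑ v ∈ S, ∑ w ∈ Sᶜ, f v w := by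
    rw [← sum_add_distrib]
    exact sum_congr rfl fun v _ => (sum_add_sum_compl S _).symm
  have e4 : ∑ v ∈ S, ∑ w ∈ S, f v w ≤ ∑ v ∈ S, ∑ u, f u v := by
    rw [sum_comm]
    exact sum_le_sum fun v _ =>
      sum_le_sum_of_subset_of_nonneg (subset_univ S) fun u _ _ => (h1 u v).1
  linarith

theorem edge_ssubset {x y : Finset (Fin d)} (h : Edge x y) : x ⊂ y := by
  obtain ⟨i, hi, rfl⟩ := h
  exact ssubset_insert hi

theorem flow_bound {cV : ℝ} {f : Finset (Fin d) → Finset (Fin d) → ℝ}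
    {s t : Finset (Fin d) → ℝ} (h : IsFlow S 1 cV f s t)
    (hviol : ∀ z ∈ S, ∀ w ∉ S, z ⊂ w → (z ∈ S1 ∧ w ∈ T1) ∨ (z ∈ S2 ∧ w ∈ T2))
    (hS1 : S1 ⊆ S) (hS2 : S2 ⊆ S) (hd : Disjoint S1 S2)
    (hedge : ∀ z ∈ S1, ∀ w ∈ T1, Edge z w → w = φ1 z) :
    ∑ v, s v ≤ S1.card + cV * S2.card := by
  refine (flow_le_cut h).trans ?_
  obtain ⟨h1, h2, h3, -, -, h6, h7⟩ := h
  have hsub : S1 ∪ S2 ⊆ S := union_subset hS1 hS2
  rw [← sum_subset hsub, sum_union hd]
  · refine add_le_add ?_ ?_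
    · rw [card_eq_sum_ones, Nat.cast_sum]
      refine sum_le_sum fun z hz => ?_
      calc ∑ w ∈ Sᶜ, f z w ≤ ∑ w ∈ Sᶜ, (if w = φ1 z then (1 : ℝ) else 0) := by
            refine sum_le_sum fun w hw => ?_
            split_ifs with hw'
            · exact (h1 z w).2
            · refine (h2 z w fun he => hw' ?_).le
              rcases hviol z (hS1 hz) w (mem_compl.1 hw) (edge_ssubset he) with h | h
              · exact hedge z hz w h.2 he
              · exact absurd h.1 (disjoint_left.1 hd hz)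
        _ ≤ ((1 : ℕ) : ℝ) := by
            rw [sum_ite_eq']
            split_ifs <;> norm_num
    · rw [mul_comm, ← nsmul_eq_mul, ← sum_const]
      refine sum_le_sum fun z _ => ?_
      have a1 : ∑ w ∈ Sᶜ, f z w ≤ ∑ w, f z w :=
        sum_le_sum_of_subset_of_nonneg (subset_univ _) fun u _ _ => (h1 z u).1
      have a2 := h6 z
      have a3 := h7 z
      have a4 := (h3 z).2
      linarith
  · intro z hz hz'
    refine sum_eq_zero fun w hw => h2 z w fun he => hz' ?_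
    rcases hviol z hz w (mem_compl.1 hw) (edge_ssubset he) with h | h
    · exact mem_union_left _ h.1
    · exact mem_union_right _ h.1

theorem matched_sub {A B : Finset (Finset (Fin d))} {φ : Finset (Fin d) → Finset (Fin d)}
    (h : Matched S A B φ)
    (hviol : ∀ z ∈ S, ∀ w ∉ S, z ⊂ w → (z ∈ S1 ∧ w ∈ T1) ∨ (z ∈ S2 ∧ w ∈ T2)) :
    A ⊆ S1 ∪ S2 ∧ B ⊆ T1 ∪ T2 := by
  obtain ⟨hA, hB, hφ, hlt⟩ := h
  constructor
  · intro z hz
    rcases hviol z (hA hz) (φ z) (mem_compl.1 (hB (hφ.mapsTo hz))) (hlt z hz) with h | h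
    · exact mem_union_left _ h.1
    · exact mem_union_right _ h.1
  · intro w hw
    obtain ⟨z, hz, rfl⟩ := hφ.surjOn hw
    rcases hviol z (hA hz) (φ z) (mem_compl.1 (hB (hφ.mapsTo hz))) (hlt z hz) with h | h
    · exact mem_union_left _ h.2
    · exact mem_union_right _ h.2

theorem card_eq_of_bijOn {A B : Finset (Finset (Fin d))} {φ : Finset (Fin d) → Finset (Fin d)}
    (h : Set.BijOn φ A B) : A.card = B.card :=
  card_nbij φ h.mapsTo h.injOn h.surjOn

theorem sum_of_bijOn {A B : Finset (Finset (Fin d))} {φ : Finset (Fin d) → Finset (Fin d)}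
    (h : Set.BijOn φ A B) : ∑ a ∈ A, ((φ a).card : ℝ) = ∑ b ∈ B, (b.card : ℝ) :=
  sum_nbij φ h.mapsTo h.injOn h.surjOn fun _ _ => rfl

theorem dvol_sep
    (hviol : ∀ z ∈ S, ∀ w ∉ S, z ⊂ w → (z ∈ S1 ∧ w ∈ T1) ∨ (z ∈ S2 ∧ w ∈ T2))
    (hS1 : S1 ⊆ S) (hS2 : S2 ⊆ S) (hd : Disjoint S1 S2)
    (hT1 : T1 ⊆ Sᶜ) (hT2 : T2 ⊆ Sᶜ) (hdT : Disjoint T1 T2)
    (hb1 : Set.BijOn φ1 S1 T1) (hl1 : ∀ z ∈ S1, z ⊂ φ1 z)
    (hc1 : ∀ z ∈ S1, (φ1 z).card = z.card + 1)
    (hb2 : Set.BijOn φ2 S2 T2) (hl2 : ∀ z ∈ S2, z ⊂ φ2 z) :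
    IsDvol S (S1.card + S2.card) ∧
    IsSepDist S (S1.card + S2.card)
      ((S1.card + (∑ w ∈ T2, (w.card : ℝ) - ∑ z ∈ S2, (z.card : ℝ))) /
        ((S1.card + S2.card : ℕ) : ℝ)) := by
  classical
  let φ : Finset (Fin d) → Finset (Fin d) := fun z => if z ∈ S1 then φ1 z else φ2 z
  have hφ1 : ∀ z ∈ S1, φ z = φ1 z := fun z hz => if_pos hz
  have hφ2 : ∀ z ∈ S2, φ z = φ2 z := fun z hz => if_neg (disjoint_right.1 hd hz)
  have hb1' : Set.BijOn φ S1 T1 := hb1.congr fun z hz => (hφ1 z hz).symm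
  have hb2' : Set.BijOn φ S2 T2 := hb2.congr fun z hz => (hφ2 z hz).symm
  have hM : Matched S (S1 ∪ S2) (T1 ∪ T2) φ := by
    refine ⟨union_subset hS1 hS2, union_subset hT1 hT2, ?_, ?_⟩
    · rw [coe_union, coe_union]
      refine hb1'.union hb2' ?_
      rintro z (hz | hz) z' (hz' | hz') h
      · exact hb1'.injOn hz hz' h
      · exact absurd (h ▸ hb1'.mapsTo hz) (disjoint_right.1 hdT (hb2'.mapsTo hz'))
      · exact absurd (h ▸ hb2'.mapsTo hz) (disjoint_left.1 hdT (hb1'.mapsTo hz'))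
      · exact hb2'.injOn hz hz' h
    · intro z hz
      rcases mem_union.1 hz with hz | hz
      · rw [hφ1 z hz]; exact hl1 z hz
      · rw [hφ2 z hz]; exact hl2 z hz
  have hcS : (S1 ∪ S2).card = S1.card + S2.card := card_union_of_disjoint hd
  have hcT : (T1 ∪ T2).card = S1.card + S2.card := by
    rw [← card_eq_of_bijOn hM.2.2.1, hcS]
  have key : ∀ A B ψ, Matched S A B ψ → A.card = S1.card + S2.card →
      (∑ a ∈ A, (((ψ a).card : ℝ) - (a.card : ℝ))) / (A.card : ℝ) =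
      (S1.card + (∑ w ∈ T2, (w.card : ℝ) - ∑ z ∈ S2, (z.card : ℝ))) /
        ((S1.card + S2.card : ℕ) : ℝ) := by
    intro A B ψ hAB hA
    obtain ⟨h1, h2⟩ := matched_sub hAB hviol
    have eA : A = S1 ∪ S2 := eq_of_subset_of_card_le h1 (by omega)
    have eB : B = T1 ∪ T2 := eq_of_subset_of_card_le h2
      (by rw [← card_eq_of_bijOn hAB.2.2.1]; omega)
    rw [sum_sub_distrib, sum_of_bijOn hAB.2.2.1, hA, eA, eB, sum_union hd, sum_union hdT,
      ← sum_of_bijOn hb1]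
    have : ∑ a ∈ S1, ((φ1 a).card : ℝ) = ∑ a ∈ S1, (a.card : ℝ) + S1.card := by
      rw [card_eq_sum_ones, Nat.cast_sum, ← sum_add_distrib]
      refine sum_congr rfl fun a ha => ?_
      rw [hc1 a ha]; push_cast; ring
    rw [this]
    congr 1
    ring
  refine ⟨⟨⟨_, _, φ, hM, hcS⟩, ?_⟩, ⟨⟨_, _, φ, hM, hcS, (key _ _ φ hM hcS).symm⟩, ?_⟩⟩
  · rintro n ⟨A, B, ψ, hAB, rfl⟩
    rw [← hcS]
    exact card_le_card (matched_sub hAB hviol).1
  · rintro ρ ⟨A, B, ψ, hAB, hA, rfl⟩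
    exact (key A B ψ hAB hA).ge

end abstract

open Pool.Agent.P.MP_02b125_co

theorem le_of_sq_le_sq' {x y : ℝ} (h : x ^ 2 ≤ y ^ 2) (hy : 0 ≤ y) : x ≤ y :=
  (abs_le_of_sq_le_sq' h hy).2

/-- The construction, for given sizes of the two blocks of coordinates. -/
theorem construction (k j : ℕ) :
    ∃ S : Finset (Finset (Fin (2 * k + 1 + (j + 2)))),
      IsDvol S (2 ^ j * 4 ^ k + 4 ^ k) ∧
      IsSepDist S (2 ^ j * 4 ^ k + 4 ^ k)
        ((2 ^ j * 4 ^ k + (2 * k + 1) * (k.centralBinom : ℝ)) / (2 ^ j * 4 ^ k + 4 ^ k)) ∧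
      ∀ cV f s t, IsFlow S 1 cV f s t → ∑ v, s v ≤ 2 ^ j * 4 ^ k + cV * 4 ^ k := by
  classical
  set d := 2 * k + 1 + (j + 2) with hd
  let e : Fin (2 * k + 1) ↪ Fin d := Fin.castAddEmb (j + 2)
  let a : Fin d := ⟨2 * k + 1, by omega⟩
  let b : Fin d := ⟨2 * k + 2, by omega⟩
  let c : Fin d := ⟨0, by omega⟩
  have hab : a ≠ b := by simp [a, b, Fin.ext_iff]
  have hac : a ≠ c := by simp [a, c, Fin.ext_iff]
  have hbc : b ≠ c := by simp [b, c, Fin.ext_iff]
  let Y : Finset (Fin d) := univ.filter (fun i => 2 * k + 2 ≤ i.1)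
  have haY : a ∉ Y := by simp [a, Y]
  have hbY : b ∈ Y := by simp [b, Y]
  have heY : ∀ i, e i ∉ Y := by
    intro i
    have := i.2
    have h : (e i).1 = i.1 := rfl
    simp only [Y, mem_filter, mem_univ, true_and]
    omega
  have hea : ∀ i, e i ≠ a := by
    intro i h
    have := i.2
    have h' : i.1 = 2 * k + 1 := congrArg Fin.val h
    omega
  let emb : Finset (Fin (2 * k + 1)) → Finset (Fin d) := fun x => x.map e ∪ Y
  have hdisj : ∀ x : Finset (Fin (2 * k + 1)), Disjoint (x.map e) Y := by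
    intro x
    rw [disjoint_left]
    intro i hi
    obtain ⟨i', _, rfl⟩ := mem_map.1 hi
    exact heY i'
  have hemb_mem : ∀ x i, e i ∈ emb x ↔ i ∈ x := by
    intro x i
    simp [emb, heY i]
  have hemb_inj : Function.Injective emb := by
    intro x y h
    ext i
    rw [← hemb_mem, ← hemb_mem, h]
  have hemb_card : ∀ x, (emb x).card = x.card + Y.card := by
    intro x
    simp only [emb]
    rw [card_union_of_disjoint (hdisj x), card_map]
  have hemb_a : ∀ x, a ∉ emb x := by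
    intro x h
    rcases mem_union.1 h with h | h
    · obtain ⟨i, _, hi⟩ := mem_map.1 h
      exact hea i hi
    · exact haY h
  have hemb_b : ∀ x, b ∈ emb x := fun x => mem_union_right _ hbY
  have hemb_lt : ∀ x y, x ⊂ y → emb x ⊂ emb y := by
    intro x y h
    refine Finset.ssubset_iff_subset_ne.2 ⟨?_, fun h' => h.ne (hemb_inj h')⟩
    exact union_subset_union (map_subset_map.2 h.1) subset_rfl
  have hemb_surj : ∀ w, Y ⊆ w → a ∉ w → ∃ x, emb x = w := by
    intro w hY ha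
    refine ⟨univ.filter (fun i => e i ∈ w), ?_⟩
    ext i
    simp only [emb, mem_union, mem_map, mem_filter, mem_univ, true_and]
    constructor
    · rintro (⟨i', h, rfl⟩ | h)
      · exact h
      · exact hY h
    · intro h
      by_cases h1 : i.1 < 2 * k + 1
      · exact Or.inl ⟨⟨i.1, h1⟩, h, rfl⟩
      · right
        have : i ≠ a := fun h' => ha (h' ▸ h)
        have : i.1 ≠ 2 * k + 1 := fun h' => this (Fin.ext h')
        simp only [Y, mem_filter, mem_univ, true_and]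
        omega
  obtain ⟨ψ, hψ, hψlt⟩ := exists_matching (upper k) (upper_isUpperSet k) (two_mul_card_upper k)
  let S1 : Finset (Finset (Fin d)) := univ.filter (fun z => a ∈ z ∧ b ∉ z ∧ c ∉ z)
  let T1 : Finset (Finset (Fin d)) := univ.filter (fun z => a ∈ z ∧ b ∉ z ∧ c ∈ z)
  let S2 : Finset (Finset (Fin d)) := (upper k)ᶜ.image emb
  let T2 : Finset (Finset (Fin d)) := (upper k).image emb
  let S : Finset (Finset (Fin d)) := univ.filter (fun z => a ∈ z ∧ (b ∈ z ∨ c ∉ z)) ∪ S2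
  let φ1 : Finset (Fin d) → Finset (Fin d) := fun z => insert c z
  let φ2 : Finset (Fin d) → Finset (Fin d) := fun z => emb (ψ (Function.invFun emb z))
  have hφ2 : ∀ x, φ2 (emb x) = emb (ψ x) := by
    intro x
    simp only [φ2]
    rw [Function.leftInverse_invFun hemb_inj x]
  have hmemS : ∀ z, z ∈ S ↔ (a ∈ z ∧ (b ∈ z ∨ c ∉ z)) ∨ z ∈ S2 := by
    intro z; simp [S]
  have hS2a : ∀ z ∈ S2, a ∉ z := by
    intro z hz
    obtain ⟨x, _, rfl⟩ := mem_image.1 hz
    exact hemb_a x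
  have hT2a : ∀ z ∈ T2, a ∉ z := by
    intro z hz
    obtain ⟨x, _, rfl⟩ := mem_image.1 hz
    exact hemb_a x
  have hviol : ∀ z ∈ S, ∀ w ∉ S, z ⊂ w → (z ∈ S1 ∧ w ∈ T1) ∨ (z ∈ S2 ∧ w ∈ T2) := by
    intro z hz w hw hzw
    rw [hmemS] at hz hw
    push Not at hw
    rcases hz with ⟨hza, hz⟩ | hz
    · left
      obtain ⟨hwb, hwc⟩ := hw.1 (hzw.1 hza)
      have hzb : b ∉ z := fun h => hwb (hzw.1 h)
      simp only [S1, T1, mem_filter, mem_univ, true_and]
      exact ⟨⟨hza, hzb, hz.resolve_left hzb⟩, hzw.1 hza, hwb, hwc⟩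
    · right
      refine ⟨hz, ?_⟩
      obtain ⟨x, _, rfl⟩ := mem_image.1 hz
      have hwa : a ∉ w := fun h => (hw.1 h).1 (hzw.1 (hemb_b x))
      obtain ⟨y, rfl⟩ := hemb_surj w (subset_union_right.trans hzw.1) hwa
      refine mem_image_of_mem _ ?_
      by_contra hy
      exact hw.2 (mem_image_of_mem _ (mem_compl.2 hy))
  have hS1 : S1 ⊆ S := by
    intro z hz
    simp only [S1, mem_filter, mem_univ, true_and] at hz
    exact (hmemS z).2 (Or.inl ⟨hz.1, Or.inr hz.2.2⟩)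
  have hS2 : S2 ⊆ S := fun z hz => (hmemS z).2 (Or.inr hz)
  have hdS : Disjoint S1 S2 := by
    rw [disjoint_left]
    intro z hz hz'
    exact hS2a z hz' (mem_filter.1 hz).2.1
  have hT1 : T1 ⊆ Sᶜ := by
    intro z hz
    simp only [T1, mem_filter, mem_univ, true_and] at hz
    rw [mem_compl, hmemS]
    rintro (⟨_, h | h⟩ | h)
    · exact hz.2.1 h
    · exact h hz.2.2
    · exact hS2a z h hz.1
  have hT2 : T2 ⊆ Sᶜ := by
    intro z hz
    rw [mem_compl, hmemS]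
    rintro (⟨h, _⟩ | h)
    · exact hT2a z hz h
    · obtain ⟨x, hx, rfl⟩ := mem_image.1 hz
      obtain ⟨y, hy, h'⟩ := mem_image.1 h
      rw [hemb_inj h'] at hy
      exact mem_compl.1 hy hx
  have hdT : Disjoint T1 T2 := by
    rw [disjoint_left]
    intro z hz hz'
    exact hT2a z hz' (mem_filter.1 hz).2.1
  have hb1 : Set.BijOn φ1 S1 T1 := by
    refine ⟨?_, ?_, ?_⟩
    · intro z hz
      simp only [S1, T1, φ1, coe_filter, mem_univ, true_and, Set.mem_ofPred_eq, mem_insert] at hz ⊢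
      exact ⟨Or.inr hz.1, fun h => h.elim hbc hz.2.1, Or.inl trivial⟩
    · intro z hz z' hz' h
      simp only [S1, coe_filter, mem_univ, true_and, Set.mem_ofPred_eq] at hz hz'
      rw [← erase_insert hz.2.2, ← erase_insert hz'.2.2]
      exact congrArg (fun w => erase w c) h
    · intro w hw
      simp only [T1, coe_filter, mem_univ, true_and, Set.mem_ofPred_eq] at hw
      refine ⟨w.erase c, ?_, insert_erase hw.2.2⟩
      simp only [S1, coe_filter, mem_univ, true_and, Set.mem_ofPred_eq, mem_erase]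
      exact ⟨⟨hac, hw.1⟩, fun h => hw.2.1 h.2, fun h => h.1 rfl⟩
  have hl1 : ∀ z ∈ S1, z ⊂ φ1 z := fun z hz => ssubset_insert (mem_filter.1 hz).2.2.2
  have hc1 : ∀ z ∈ S1, (φ1 z).card = z.card + 1 :=
    fun z hz => card_insert_of_notMem (mem_filter.1 hz).2.2.2
  have hedge : ∀ z ∈ S1, ∀ w ∈ T1, Edge z w → w = φ1 z := by
    rintro z hz w hw ⟨i, _, rfl⟩
    have h1 := (mem_filter.1 hz).2.2.2
    have h2 := (mem_filter.1 hw).2.2.2
    rcases mem_insert.1 h2 with h | h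
    · rw [← h]
    · exact absurd h h1
  have hb2 : Set.BijOn φ2 S2 T2 := by
    refine ⟨?_, ?_, ?_⟩
    · intro z hz
      obtain ⟨x, hx, rfl⟩ := mem_image.1 hz
      rw [hφ2]
      exact mem_image_of_mem _ (hψ.mapsTo hx)
    · intro z hz z' hz' h
      obtain ⟨x, hx, rfl⟩ := mem_image.1 hz
      obtain ⟨x', hx', rfl⟩ := mem_image.1 hz'
      rw [hφ2, hφ2] at h
      rw [hψ.injOn hx hx' (hemb_inj h)]
    · intro w hw
      obtain ⟨y, hy, rfl⟩ := mem_image.1 hw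
      obtain ⟨x, hx, rfl⟩ := hψ.surjOn hy
      exact ⟨emb x, mem_image_of_mem _ hx, hφ2 x⟩
  have hl2 : ∀ z ∈ S2, z ⊂ φ2 z := by
    intro z hz
    obtain ⟨x, hx, rfl⟩ := mem_image.1 hz
    rw [hφ2]
    exact hemb_lt _ _ (hψlt x hx)
  have hcS1 : S1.card = 2 ^ j * 4 ^ k := by
    have : S1 = Icc {a} (({b, c} : Finset (Fin d))ᶜ) := by
      ext z
      simp only [S1, mem_filter, mem_univ, true_and, mem_Icc, singleton_subset_iff,
        subset_compl_iff_disjoint_right, disjoint_insert_right, disjoint_singleton_right]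
    rw [this, card_Icc_finset, card_compl, card_pair hbc, card_singleton, Fintype.card_fin]
    · have : d - 2 - 1 = j + 2 * k := by omega
      rw [this, pow_add, pow_mul]; norm_num
    · simp [hab, hac]
  have hcS2 : S2.card = 4 ^ k := by
    rw [card_image_of_injective _ hemb_inj, card_compl_upper, card_upper]
  have hL : ∑ w ∈ T2, (w.card : ℝ) - ∑ z ∈ S2, (z.card : ℝ) =
      (2 * k + 1) * (k.centralBinom : ℝ) := by
    rw [← length_upper, sum_image (fun x _ y _ h => hemb_inj h),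
      sum_image (fun x _ y _ h => hemb_inj h)]
    simp only [hemb_card, Nat.cast_add, sum_add_distrib, sum_const, card_compl_upper]
    ring
  obtain ⟨h1, h2⟩ := dvol_sep hviol hS1 hS2 hdS hT1 hT2 hdT hb1 hl1 hc1 hb2 hl2
  rw [hcS1, hcS2] at h1 h2
  rw [hL] at h2
  refine ⟨S, h1, ?_, ?_⟩
  · push_cast at h2
    exact h2
  · intro cV f s t hf
    have := flow_bound hf hviol hS1 hS2 hdS hedge
    rw [hcS1, hcS2] at this
    push_cast at this
    exact this

/-- For every `c > 0` there are `d ≥ 2` and a set `S` of vertices of the `d`-dimensional directed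
hypercube with directed volume `D ≥ 1` and separation distance `r` such that the maxflow with unit
edge capacities and vertex capacities `r ^ 2` is less than `c * r * D`. -/
theorem result :
    ∀ c : ℝ, 0 < c → ∃ d : ℕ, 2 ≤ d ∧ ∃ (S : Finset (Finset (Fin d))) (D : ℕ) (r m : ℝ),
      IsDvol S D ∧ 1 ≤ D ∧ IsSepDist S D r ∧ IsMaxflow S 1 (r ^ 2) m ∧ m < c * r * D := by
  intro c hc
  obtain ⟨i, hi⟩ : ∃ i : ℕ, 10 / c < 2 ^ i := pow_unbounded_of_one_lt _ one_lt_two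
  obtain ⟨k, hk⟩ : ∃ k : ℕ, k = (2 ^ i) ^ 6 := ⟨_, rfl⟩
  obtain ⟨S, h1, h2, h3⟩ := construction k (2 * i)
  set t : ℝ := 2 ^ i with ht
  have ht1 : 1 ≤ t := one_le_pow₀ one_le_two
  have hkt : (k : ℝ) = t ^ 6 := by rw [hk, ht]; push_cast; ring
  have hM : (2 : ℝ) ^ (2 * i) = t ^ 2 := by rw [ht]; ring
  obtain ⟨hlo, hhi⟩ := central_bounds k
  set L : ℝ := (2 * k + 1) * (k.centralBinom : ℝ) with hL
  set P : ℝ := 4 ^ k with hP
  have hP0 : 0 < P := by positivity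
  have hL0 : 0 ≤ L := by positivity
  have hlo' : t ^ 3 * P ≤ L := by
    refine le_of_sq_le_sq' ?_ hL0
    refine le_trans ?_ hlo
    rw [hkt]
    have : 0 < P ^ 2 := by positivity
    nlinarith
  have hhi' : L ≤ 2 * t ^ 3 * P := by
    refine le_of_sq_le_sq' ?_ (by positivity)
    refine le_trans hhi ?_
    rw [hkt]
    have h6 : 1 ≤ t ^ 6 := one_le_pow₀ ht1
    have : 0 < P ^ 2 := by positivity
    nlinarith
  rw [hM] at h2 h3
  set r : ℝ := (t ^ 2 * P + L) / (t ^ 2 * P + P) with hr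
  have hden : 0 < t ^ 2 * P + P := by positivity
  have hr0 : 0 ≤ r := by positivity
  have hr3 : r ≤ 3 * t := by
    rw [hr, div_le_iff₀ hden]
    have : t ^ 2 * P ≤ t ^ 3 * P := by
      have : t ^ 2 ≤ t ^ 3 := pow_le_pow_right₀ ht1 (by norm_num)
      gcongr
    have : 0 ≤ t * P := by positivity
    nlinarith
  have hrD : r * (t ^ 2 * P + P) = t ^ 2 * P + L := div_mul_cancel₀ _ hden.ne'
  let Val : Set ℝ := {val | ∃ f s t, IsFlow S 1 (r ^ 2) f s t ∧ val = ∑ v, s v}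
  have hub : t ^ 2 * P + r ^ 2 * P ∈ upperBounds Val := by
    rintro _ ⟨f, s, t', hf, rfl⟩
    exact h3 _ f s t' hf
  have hne : Val.Nonempty := by
    refine ⟨_, fun _ _ => 0, fun _ => 0, fun _ => 0, ?_, rfl⟩
    refine ⟨?_, ?_, ?_, ?_, ?_, ?_, ?_⟩ <;> simp [sq_nonneg]
  refine ⟨_, by omega, S, _, r, sSup Val, h1, ?_, h2, Real.isLUB_sSup hne ⟨_, hub⟩, ?_⟩
  · have : 0 < 4 ^ k := by positivity
    omega
  · refine lt_of_le_of_lt (csSup_le hne hub) ?_
    push_cast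
    rw [hM, ← hP, mul_assoc, hrD]
    have h9 : r ^ 2 ≤ 9 * t ^ 2 := by nlinarith
    have hct : 10 < c * t := by
      rw [div_lt_iff₀ hc] at hi
      linarith
    have a1 : r ^ 2 * P ≤ 9 * t ^ 2 * P := by gcongr
    have a2 : 0 < t ^ 2 * P := by positivity
    have a3 : 10 * (t ^ 2 * P) < c * t * (t ^ 2 * P) := by gcongr
    have a4 : c * (t ^ 3 * P) ≤ c * L := by gcongr
    have a5 : 0 ≤ c * (t ^ 2 * P) := by positivity
    nlinarith

end Pool.Agent.Results.MP_02b125_co.FlowCounter
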